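import Mathlib

set_option autoImplicit false

open MeasureTheory Set Filter
open scoped ENNReal NNReal Topology

namespace Pool.Agent.H7R3.TF

/-- Three dimensional Euclidean space. -/
abbrev E3 := EuclideanSpace ℝ (Fin 3)

/-- the cut-off function `1_{|x|<1} |x|^{-5/2}`. -/
noncomputable def hcut (x : E3) : ℝ := indicator (Metric.ball (0 : E3) 1) (fun x => ‖x‖ ^ (-(5 / 2) : ℝ)) x

lemma hcut_nonneg (x : E3) : 0 ≤ hcut x := by
  unfold hcut
  exact indicator_nonneg (fun y _ => Real.rpow_nonneg (norm_nonneg _) _) x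

lemma integrable_hcut : Integrable hcut := by
  unfold hcut
  rw [integrable_indicator_iff Metric.isOpen_ball.measurableSet]
  have := (integrableOn_fun_norm_addHaar (E := E3) (μ := volume) (f := fun y : ℝ => y ^ (-(5 / 2) : ℝ))
    (r := 1)).2
  apply this
  have h1 : IntegrableOn (fun y : ℝ => y ^ (-(1 / 2) : ℝ)) (Ioo 0 1) := by
    rw [intervalIntegral.integrableOn_Ioo_rpow_iff one_pos]
    norm_num
  refine h1.congr_fun ?_ measurableSet_Ioo
  intro y hy
  simp only [finrank_euclideanSpace, Fintype.card_fin, smul_eq_mul]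
  rw [show (3 - 1 : ℕ) = 2 from rfl, ← Real.rpow_natCast, ← Real.rpow_add hy.1]
  norm_num

noncomputable def Hc : ℝ := ∫ x, hcut x

lemma Hc_nonneg : 0 ≤ Hc := integral_nonneg hcut_nonneg

/-- basic pointwise Young inequality -/
lemma young {a b : ℝ} (ha : 0 ≤ a) (hb : 0 ≤ b) : a * b ≤ b ^ (5 / 3 : ℝ) + a ^ (5 / 2 : ℝ) := by
  rcases le_total a (b ^ (2 / 3 : ℝ)) with h | h
  · have h1 : a * b ≤ b ^ (5 / 3 : ℝ) := by
      calc a * b ≤ b ^ (2 / 3 : ℝ) * b := mul_le_mul_of_nonneg_right h hb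
        _ = b ^ (5 / 3 : ℝ) := by
          rcases hb.eq_or_lt with h0 | h0
          · rw [← h0, Real.zero_rpow (by norm_num), Real.zero_rpow (by norm_num), mul_zero]
          · nth_rewrite 2 [← Real.rpow_one b]
            rw [← Real.rpow_add h0]; norm_num
    have := Real.rpow_nonneg ha (5 / 2 : ℝ)
    linarith
  · have h1 : a * b ≤ a ^ (5 / 2 : ℝ) := by
      have hb' : b ≤ a ^ (3 / 2 : ℝ) := by
        calc b = (b ^ (2 / 3 : ℝ)) ^ (3 / 2 : ℝ) := by
              rw [← Real.rpow_mul hb]; norm_num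
          _ ≤ a ^ (3 / 2 : ℝ) := Real.rpow_le_rpow (Real.rpow_nonneg hb _) h (by norm_num)
      calc a * b ≤ a * a ^ (3 / 2 : ℝ) := mul_le_mul_of_nonneg_left hb' ha
        _ = a ^ (5 / 2 : ℝ) := by
          rcases ha.eq_or_lt with h0 | h0
          · rw [← h0, Real.zero_rpow (by norm_num), Real.zero_rpow (by norm_num), mul_zero]
          · nth_rewrite 1 [← Real.rpow_one a]
            rw [← Real.rpow_add h0]; norm_num
    have := Real.rpow_nonneg hb (5 / 3 : ℝ)
    linarith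

/-- pointwise bound of `b/|x|`. -/
lemma div_norm_le {b : ℝ} (hb : 0 ≤ b) (x : E3) :
    b / ‖x‖ ≤ b + b ^ (5 / 3 : ℝ) + hcut x := by
  by_cases hx : x ∈ Metric.ball (0 : E3) 1
  · have h := young (a := 1 / ‖x‖) (b := b) (by positivity) hb
    have e1 : (1 / ‖x‖) ^ (5 / 2 : ℝ) = hcut x := by
      unfold hcut
      rw [indicator_of_mem hx, one_div, Real.inv_rpow (norm_nonneg _), ← Real.rpow_neg (norm_nonneg _)]
    rw [e1] at h
    have e2 : 1 / ‖x‖ * b = b / ‖x‖ := by ring
    rw [e2] at h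
    linarith
  · have hx' : 1 ≤ ‖x‖ := by simpa using hx
    have h1 : b / ‖x‖ ≤ b := div_le_self hb hx'
    have := Real.rpow_nonneg hb (5 / 3 : ℝ)
    have := hcut_nonneg x
    linarith

variable {ρ : E3 → ℝ}

lemma integrable_div_norm (h0 : ∀ x, 0 ≤ ρ x) (h1 : Integrable ρ)
    (h2 : Integrable fun x => ρ x ^ (5 / 3 : ℝ)) (R : E3) :
    Integrable fun x => ρ x / ‖x - R‖ := by
  have h3 : Integrable fun x => ρ x + ρ x ^ (5 / 3 : ℝ) + hcut (x - R) :=
    (h1.add h2).add (integrable_hcut.comp_sub_right R)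
  refine h3.mono' ?_ (Eventually.of_forall fun x => ?_)
  · have : Measurable fun x : E3 => ‖x - R‖ := by fun_prop
    exact h1.aestronglyMeasurable.aemeasurable.div this.aemeasurable |>.aestronglyMeasurable
  · rw [Real.norm_of_nonneg (div_nonneg (h0 x) (norm_nonneg _))]
    exact div_norm_le (h0 x) (x - R)

lemma integrable_pair (h0 : ∀ x, 0 ≤ ρ x) (h1 : Integrable ρ)
    (h2 : Integrable fun x => ρ x ^ (5 / 3 : ℝ)) :
    Integrable fun p : E3 × E3 => ρ p.1 * ρ p.2 / ‖p.1 - p.2‖ := by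
  have h3 : Integrable (fun p : E3 × E3 => ρ p.2 * hcut (p.1 - p.2)) := by
    have := Integrable.convolution_integrand (L := ContinuousLinearMap.mul ℝ ℝ) (μ := (volume : Measure E3))
      (ν := (volume : Measure E3)) h1 integrable_hcut
    rw [Measure.volume_eq_prod]
    simpa using this
  have h4 : Integrable (fun p : E3 × E3 => (ρ p.1 + ρ p.1 ^ (5 / 3 : ℝ)) * ρ p.2) :=
    (h1.add h2).mul_prod h1
  have h5 : Integrable (fun p : E3 × E3 => (ρ p.1 + ρ p.1 ^ (5 / 3 : ℝ)) * ρ p.2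
      + ρ p.2 * hcut (p.1 - p.2)) := h4.add h3
  refine h5.mono' ?_ (Eventually.of_forall fun p => ?_)
  · have e1 : AEMeasurable (fun p : E3 × E3 => ρ p.1) :=
      (h1.aestronglyMeasurable.comp_fst (ν := (volume : Measure E3))).aemeasurable
    have e2 : AEMeasurable (fun p : E3 × E3 => ρ p.2) :=
      (h1.aestronglyMeasurable.comp_snd (μ := (volume : Measure E3))).aemeasurable
    have e3 : Measurable fun p : E3 × E3 => ‖p.1 - p.2‖ := by fun_prop
    exact ((e1.mul e2).div e3.aemeasurable).aestronglyMeasurable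
  · rw [Real.norm_of_nonneg (div_nonneg (mul_nonneg (h0 _) (h0 _)) (norm_nonneg _))]
    have h := div_norm_le (h0 p.1) (p.1 - p.2)
    have h' := mul_le_mul_of_nonneg_left h (h0 p.2)
    calc ρ p.1 * ρ p.2 / ‖p.1 - p.2‖ = ρ p.2 * (ρ p.1 / ‖p.1 - p.2‖) := by ring
      _ ≤ _ := h'
      _ = _ := by ring

end Pool.Agent.H7R3.TF
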