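import Mathlib
import Pool.Agent.H7R3.TF.TA

set_option autoImplicit false

open MeasureTheory Set Filter
open scoped ENNReal NNReal Topology

namespace Pool.Agent.H7R3.TF

/-- `K t x = 1` if `t * |x - R| < 1`, else `0`. -/
noncomputable def Kf (R : E3) (t : ℝ) (x : E3) : ℝ := if t * ‖x - R‖ < 1 then 1 else 0

lemma Kf_nonneg (R : E3) (t : ℝ) (x : E3) : 0 ≤ Kf R t x := by
  unfold Kf; split_ifs <;> norm_num

lemma Kf_le_one (R : E3) (t : ℝ) (x : E3) : Kf R t x ≤ 1 := by
  unfold Kf; split_ifs <;> norm_num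

lemma measurable_Kf (R : E3) : Measurable fun p : ℝ × E3 => Kf R p.1 p.2 := by
  unfold Kf
  refine Measurable.ite ?_ measurable_const measurable_const
  exact measurableSet_lt (by fun_prop) measurable_const

/-- the measure `dt` on `(0, T]`. -/
noncomputable def tau (T : ℝ) : Measure ℝ := volume.restrict (Ioc 0 T)

instance (T : ℝ) : IsFiniteMeasure (tau T) := by
  unfold tau
  infer_instance

lemma integral_K_ge {R : E3} {T : ℝ} (x : E3) :
    1 / ‖x - R‖ - (if T * ‖x - R‖ < 1 then 1 / ‖x - R‖ else 0) ≤ ∫ t, Kf R t x ∂(tau T) := by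
  have hnn : 0 ≤ ∫ t, Kf R t x ∂(tau T) := integral_nonneg fun t => Kf_nonneg R t x
  by_cases hx : T * ‖x - R‖ < 1
  · rw [if_pos hx, sub_self]; exact hnn
  · rw [if_neg hx, sub_zero]
    have hx' : 1 ≤ T * ‖x - R‖ := not_lt.1 hx
    have hr : 0 < ‖x - R‖ := by
      by_contra h
      have : ‖x - R‖ = 0 := le_antisymm (not_lt.1 h) (norm_nonneg _)
      rw [this, mul_zero] at hx'; linarith
    have hle : 1 / ‖x - R‖ ≤ T := by
      rw [div_le_iff₀ hr]; exact hx'
    have e : ∫ t, Kf R t x ∂(tau T) = (volume.restrict (Ioc 0 T)).real {t | t * ‖x - R‖ < 1} := by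
      unfold Kf tau
      have : (fun t : ℝ => if t * ‖x - R‖ < 1 then (1 : ℝ) else 0)
          = indicator {t : ℝ | t * ‖x - R‖ < 1} (fun _ => 1) := by
        ext t; simp [indicator]
      rw [this, integral_indicator (measurableSet_lt (by fun_prop) measurable_const)]
      simp
    rw [e, Measure.real, Measure.restrict_apply (measurableSet_lt (by fun_prop) measurable_const)]
    have hsub : Ioo (0 : ℝ) (1 / ‖x - R‖) ⊆ {t : ℝ | t * ‖x - R‖ < 1} ∩ Ioc 0 T := by
      intro t ht
      refine ⟨?_, ht.1, ht.2.le.trans hle⟩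
      have := ht.2
      rw [lt_div_iff₀ hr] at this
      exact this
    have hm := measure_mono (μ := (volume : Measure ℝ)) hsub
    rw [Real.volume_Ioo, sub_zero] at hm
    have hfin : volume ({t : ℝ | t * ‖x - R‖ < 1} ∩ Ioc 0 T) ≠ ∞ := by
      refine ne_top_of_le_ne_top ?_ (measure_mono inter_subset_right)
      simp
    have := (ENNReal.ofReal_le_iff_le_toReal hfin).1 hm
    exact this

lemma integral_KK_le {R : E3} {T : ℝ} {x y : E3} (hxy : x ≠ y) :
    ∫ t, Kf R t x * Kf R t y ∂(tau T) ≤ 2 / ‖x - y‖ := by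
  have hr : 0 < ‖x - y‖ := norm_pos_iff.2 (sub_ne_zero.2 hxy)
  have hle : ∀ t, Kf R t x * Kf R t y ≤ indicator (Iio (2 / ‖x - y‖)) (fun _ => (1 : ℝ)) t := by
    intro t
    unfold Kf
    by_cases h1 : t * ‖x - R‖ < 1
    · by_cases h2 : t * ‖y - R‖ < 1
      · rw [if_pos h1, if_pos h2]
        have ht : t ∈ Iio (2 / ‖x - y‖) := by
          rw [mem_Iio, lt_div_iff₀ hr]
          rcases le_total t 0 with h | h
          · have := mul_nonpos_of_nonpos_of_nonneg h hr.le
            linarith
          · have : ‖x - y‖ ≤ ‖x - R‖ + ‖y - R‖ := by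
              have := norm_sub_le (x - R) (y - R)
              simpa using this
            nlinarith
        rw [indicator_of_mem ht]; norm_num
      · rw [if_neg h2, mul_zero]
        exact indicator_nonneg (fun _ _ => zero_le_one) _
    · rw [if_neg h1, zero_mul]
      exact indicator_nonneg (fun _ _ => zero_le_one) _
  have hmI : MeasurableSet (Iio (2 / ‖x - y‖)) := measurableSet_Iio
  have h1 : ∫ t, Kf R t x * Kf R t y ∂(tau T)
      ≤ ∫ t, indicator (Iio (2 / ‖x - y‖)) (fun _ => (1 : ℝ)) t ∂(tau T) := by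
    refine integral_mono_of_nonneg (Eventually.of_forall fun t => mul_nonneg (Kf_nonneg _ _ _) (Kf_nonneg _ _ _))
      ((integrable_const (1 : ℝ)).indicator hmI) (Eventually.of_forall hle)
  refine h1.trans ?_
  rw [integral_indicator hmI]
  simp only [integral_const, smul_eq_mul, mul_one]
  unfold tau
  rw [Measure.real, Measure.restrict_apply MeasurableSet.univ, univ_inter,
    Measure.restrict_apply hmI]
  have hsub : Iio (2 / ‖x - y‖) ∩ Ioc 0 T ⊆ Ioo 0 (2 / ‖x - y‖) := fun t ht => ⟨ht.2.1, ht.1⟩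
  have hm := measure_mono (μ := (volume : Measure ℝ)) hsub
  rw [Real.volume_Ioo, sub_zero] at hm
  exact ENNReal.toReal_le_of_le_ofReal (by positivity) hm

variable {ρ : E3 → ℝ}

lemma integrable_tK (h1 : Integrable ρ) (R : E3) (T : ℝ) :
    Integrable (fun p : ℝ × E3 => ρ p.2 * Kf R p.1 p.2) ((tau T).prod volume) := by
  have h2 : Integrable (fun p : ℝ × E3 => ρ p.2) ((tau T).prod volume) := h1.comp_snd (tau T)
  refine h2.mono (h2.aestronglyMeasurable.mul (measurable_Kf R).aestronglyMeasurable)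
    (Eventually.of_forall fun p => ?_)
  rw [norm_mul]
  have : ‖Kf R p.1 p.2‖ ≤ 1 := by
    rw [Real.norm_of_nonneg (Kf_nonneg _ _ _)]; exact Kf_le_one _ _ _
  exact mul_le_of_le_one_right (norm_nonneg _) this

lemma integrable_tKK (h1 : Integrable ρ) (R : E3) (T : ℝ) :
    Integrable (fun p : ℝ × (E3 × E3) => (ρ p.2.1 * ρ p.2.2) * (Kf R p.1 p.2.1 * Kf R p.1 p.2.2))
      ((tau T).prod (volume.prod volume)) := by
  have h3 : Integrable (fun q : E3 × E3 => ρ q.1 * ρ q.2) (volume.prod volume) := h1.mul_prod h1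
  have h2 : Integrable (fun p : ℝ × (E3 × E3) => ρ p.2.1 * ρ p.2.2) ((tau T).prod (volume.prod volume)) :=
    h3.comp_snd (tau T)
  have m1 : Measurable fun p : ℝ × (E3 × E3) => Kf R p.1 p.2.1 :=
    (measurable_Kf R).comp (measurable_fst.prodMk measurable_snd.fst)
  have m2 : Measurable fun p : ℝ × (E3 × E3) => Kf R p.1 p.2.2 :=
    (measurable_Kf R).comp (measurable_fst.prodMk measurable_snd.snd)
  refine h2.mono (h2.aestronglyMeasurable.mul (m1.mul m2).aestronglyMeasurable)
    (Eventually.of_forall fun p => ?_)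
  rw [norm_mul]
  have : ‖Kf R p.1 p.2.1 * Kf R p.1 p.2.2‖ ≤ 1 := by
    rw [Real.norm_of_nonneg (mul_nonneg (Kf_nonneg _ _ _) (Kf_nonneg _ _ _))]
    exact mul_le_one₀ (Kf_le_one _ _ _) (Kf_nonneg _ _ _) (Kf_le_one _ _ _)
  exact mul_le_of_le_one_right (norm_nonneg _) this

/-- key lower bound of the Coulomb self energy against the attraction by a nucleus. -/
lemma key_bound (h0 : ∀ x, 0 ≤ ρ x) (h1 : Integrable ρ)
    (h2 : Integrable fun x => ρ x ^ (5 / 3 : ℝ)) (R : E3) {T Z : ℝ} (hT : 0 < T) (hZ : 0 ≤ Z) :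
    Z * (∫ x, ρ x / ‖x - R‖) ≤ 1 / 2 * (∫ p : E3 × E3, ρ p.1 * ρ p.2 / ‖p.1 - p.2‖) + Z ^ 2 * T
      + Z * ∫ x, (if T * ‖x - R‖ < 1 then ρ x / ‖x - R‖ else 0) := by
  set G : ℝ → ℝ := fun t => ∫ x, ρ x * Kf R t x with hG
  -- A
  have hA : ∫ t, G t ∂(tau T) = ∫ x, ρ x * ∫ t, Kf R t x ∂(tau T) := by
    rw [hG, integral_integral_swap (f := fun t x => ρ x * Kf R t x) (integrable_tK h1 R T)]
    refine integral_congr_ae (Eventually.of_forall fun x => ?_)
    simp only
    rw [integral_const_mul]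
  have hGi : Integrable G (tau T) := (integrable_tK h1 R T).integral_prod_left
  have hG2 : ∀ t, (G t) ^ 2 = ∫ p : E3 × E3, (ρ p.1 * ρ p.2) * (Kf R t p.1 * Kf R t p.2) ∂(volume.prod volume) := by
    intro t
    rw [sq, hG]
    simp only
    rw [← integral_prod_mul (fun x => ρ x * Kf R t x) (fun x => ρ x * Kf R t x)]
    refine integral_congr_ae (Eventually.of_forall fun p => ?_)
    simp only
    ring
  have hG2i : Integrable (fun t => (G t) ^ 2) (tau T) := by
    have := (integrable_tKK h1 R T).integral_prod_left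
    refine this.congr (Eventually.of_forall fun t => ?_)
    simp only
    rw [hG2 t]
  have hB : ∫ t, (G t) ^ 2 ∂(tau T)
      = ∫ p : E3 × E3, (ρ p.1 * ρ p.2) * (∫ t, Kf R t p.1 * Kf R t p.2 ∂(tau T)) ∂(volume.prod volume) := by
    simp_rw [hG2]
    rw [integral_integral_swap (f := fun t (p : E3 × E3) => (ρ p.1 * ρ p.2) * (Kf R t p.1 * Kf R t p.2))
      (integrable_tKK h1 R T)]
    refine integral_congr_ae (Eventually.of_forall fun p => ?_)
    simp only
    rw [integral_const_mul]
  -- square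
  have hsq : 0 ≤ ∫ t, (1 / 2 * G t - Z) ^ 2 ∂(tau T) := integral_nonneg fun t => sq_nonneg _
  have hexp : ∫ t, (1 / 2 * G t - Z) ^ 2 ∂(tau T)
      = 1 / 4 * (∫ t, (G t) ^ 2 ∂(tau T)) - Z * (∫ t, G t ∂(tau T)) + Z ^ 2 * T := by
    have e : ∀ t, (1 / 2 * G t - Z) ^ 2 = 1 / 4 * (G t) ^ 2 - Z * G t + Z ^ 2 := by intro t; ring
    simp_rw [e]
    have i1 : Integrable (fun t => 1 / 4 * (G t) ^ 2) (tau T) := hG2i.const_mul _
    have i2 : Integrable (fun t => Z * G t) (tau T) := hGi.const_mul _
    have i3 : Integrable (fun t => 1 / 4 * (G t) ^ 2 - Z * G t) (tau T) := i1.sub i2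
    rw [integral_add i3 (integrable_const _),
      integral_sub i1 i2, integral_const_mul, integral_const_mul,
      integral_const]
    have : (tau T).real univ = T := by
      unfold tau
      rw [Measure.real, Measure.restrict_apply MeasurableSet.univ, univ_inter, Real.volume_Ioc, sub_zero,
        ENNReal.toReal_ofReal hT.le]
    rw [this, smul_eq_mul]
    ring
  -- D bound
  have hD : 1 / 4 * (∫ t, (G t) ^ 2 ∂(tau T)) ≤ 1 / 2 * (∫ p : E3 × E3, ρ p.1 * ρ p.2 / ‖p.1 - p.2‖) := by
    have : ∫ t, (G t) ^ 2 ∂(tau T) ≤ 2 * (∫ p : E3 × E3, ρ p.1 * ρ p.2 / ‖p.1 - p.2‖) := by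
      rw [hB, ← integral_const_mul, Measure.volume_eq_prod]
      refine integral_mono_ae ?_ ?_ ?_
      · have := (integrable_tKK h1 R T).integral_prod_right
        refine this.congr (Eventually.of_forall fun p => ?_)
        simp only
        rw [integral_const_mul]
      · have := integrable_pair h0 h1 h2
        rw [Measure.volume_eq_prod] at this
        exact this.const_mul 2
      · have hdiag : ∀ᵐ p : E3 × E3 ∂(volume.prod volume), p.1 ≠ p.2 := by
          have hms : MeasurableSet {p : E3 × E3 | p.1 ≠ p.2} :=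
            (measurableSet_eq_fun measurable_fst measurable_snd).compl
          refine (Measure.ae_prod_iff_ae_ae hms).2 ?_
          refine Eventually.of_forall fun x => ?_
          have : volume ({x} : Set E3) = 0 := measure_singleton x
          rw [ae_iff]
          simpa using this
        filter_upwards [hdiag] with p hp
        have h := integral_KK_le (R := R) (T := T) hp
        calc ρ p.1 * ρ p.2 * ∫ t, Kf R t p.1 * Kf R t p.2 ∂(tau T)
            ≤ ρ p.1 * ρ p.2 * (2 / ‖p.1 - p.2‖) :=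
              mul_le_mul_of_nonneg_left h (mul_nonneg (h0 _) (h0 _))
          _ = _ := by ring
    linarith
  -- attraction
  have hatt : (∫ x, ρ x / ‖x - R‖) - (∫ x, (if T * ‖x - R‖ < 1 then ρ x / ‖x - R‖ else 0)) ≤ ∫ t, G t ∂(tau T) := by
    have hi1 := integrable_div_norm h0 h1 h2 R
    have hmset : MeasurableSet {x : E3 | T * ‖x - R‖ < 1} := measurableSet_lt (by fun_prop) measurable_const
    have hi2 : Integrable fun x => (if T * ‖x - R‖ < 1 then ρ x / ‖x - R‖ else 0) := by
      refine (hi1.indicator hmset).congr (Eventually.of_forall fun x => ?_)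
      simp [indicator]
    rw [hA, ← integral_sub hi1 hi2]
    refine integral_mono_ae (hi1.sub hi2) ?_ (Eventually.of_forall fun x => ?_)
    · have := (integrable_tK h1 R T).integral_prod_right
      refine this.congr (Eventually.of_forall fun p => ?_)
      simp only
      rw [integral_const_mul]
    · simp only
      have h := mul_le_mul_of_nonneg_left (integral_K_ge (R := R) (T := T) x) (h0 x)
      refine le_trans (le_of_eq ?_) h
      split_ifs <;> ring
  have hatt' := mul_le_mul_of_nonneg_left hatt hZ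
  rw [mul_sub] at hatt'
  linarith

end Pool.Agent.H7R3.TF
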