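import Mathlib
import Pool.Agent.H7R3.TF.TB

set_option autoImplicit false

open MeasureTheory Set Filter
open scoped ENNReal NNReal Topology

namespace Pool.Agent.H7R3.TF

variable {ρ : E3 → ℝ}

lemma integrable_hcut_scaled (R : E3) {T : ℝ} (hT : 0 < T) :
    Integrable fun x => hcut (T • (x - R)) := by
  have h1 : Integrable fun x => hcut (T • x) := integrable_hcut.comp_smul hT.ne'
  exact h1.comp_sub_right R

lemma integral_hcut_scaled (R : E3) {T : ℝ} (hT : 0 < T) :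
    ∫ x, hcut (T • (x - R)) = (T ^ 3)⁻¹ * Hc := by
  rw [integral_sub_right_eq_self (fun x => hcut (T • x)) R]
  rw [Measure.integral_comp_smul]
  simp only [finrank_euclideanSpace, Fintype.card_fin, smul_eq_mul]
  rw [abs_of_pos (by positivity)]
  rfl

lemma pointwise_near (h0 : ∀ x, 0 ≤ ρ x) (R : E3) {T : ℝ} (hT : 0 < T) (x : E3) :
    T ^ 3 * (if T * ‖x - R‖ < 1 then ρ x / ‖x - R‖ else 0)
      ≤ ρ x ^ (5 / 3 : ℝ) + T ^ 10 * hcut (T • (x - R)) := by
  by_cases hx : T * ‖x - R‖ < 1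
  · rw [if_pos hx]
    have hmem : T • (x - R) ∈ Metric.ball (0 : E3) 1 := by
      rw [mem_ball_zero_iff, norm_smul, Real.norm_of_nonneg hT.le]; exact hx
    have h := young (a := T ^ 3 / ‖x - R‖) (b := ρ x) (by positivity) (h0 x)
    have e : (T ^ 3 / ‖x - R‖) ^ (5 / 2 : ℝ) = T ^ 10 * hcut (T • (x - R)) := by
      unfold hcut
      rw [indicator_of_mem hmem, norm_smul, Real.norm_of_nonneg hT.le]
      have e1 : T ^ 3 / ‖x - R‖ = T ^ 4 * (T * ‖x - R‖)⁻¹ := by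
        rcases (norm_nonneg (x - R)).eq_or_lt with h | h
        · rw [← h]; simp
        · field_simp
      rw [e1, Real.mul_rpow (by positivity) (by positivity), Real.inv_rpow (by positivity),
        ← Real.rpow_neg (by positivity), ← Real.rpow_natCast T 4, ← Real.rpow_mul hT.le,
        ← Real.rpow_natCast T 10]
      norm_num
    rw [e] at h
    calc T ^ 3 * (ρ x / ‖x - R‖) = T ^ 3 / ‖x - R‖ * ρ x := by ring
      _ ≤ _ := h
  · rw [if_neg hx, mul_zero]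
    have := Real.rpow_nonneg (h0 x) (5 / 3 : ℝ)
    have := hcut_nonneg (T • (x - R))
    positivity

/-- Thomas-Fermi lower bound for one nucleus of charge `T^3`. -/
lemma single (h0 : ∀ x, 0 ≤ ρ x) (h1 : Integrable ρ)
    (h2 : Integrable fun x => ρ x ^ (5 / 3 : ℝ)) (R : E3) {T : ℝ} (hT : 0 < T) :
    T ^ 3 * (∫ x, ρ x / ‖x - R‖) ≤ (∫ x, ρ x ^ (5 / 3 : ℝ))
      + 1 / 2 * (∫ p : E3 × E3, ρ p.1 * ρ p.2 / ‖p.1 - p.2‖) + (1 + Hc) * T ^ 7 := by
  have hk := key_bound h0 h1 h2 R (T := T) (Z := T ^ 3) hT (by positivity)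
  have hi1 := integrable_div_norm h0 h1 h2 R
  have hmset : MeasurableSet {x : E3 | T * ‖x - R‖ < 1} := measurableSet_lt (by fun_prop) measurable_const
  have hi2 : Integrable fun x => (if T * ‖x - R‖ < 1 then ρ x / ‖x - R‖ else 0) := by
    refine (hi1.indicator hmset).congr (Eventually.of_forall fun x => ?_)
    simp [indicator]
  have hn : T ^ 3 * (∫ x, (if T * ‖x - R‖ < 1 then ρ x / ‖x - R‖ else 0))
      ≤ (∫ x, ρ x ^ (5 / 3 : ℝ)) + T ^ 7 * Hc := by
    rw [← integral_const_mul]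
    have hi3 : Integrable fun x => T ^ 10 * hcut (T • (x - R)) := (integrable_hcut_scaled R hT).const_mul _
    have := integral_mono (hi2.const_mul (T ^ 3)) (h2.add hi3) (fun x => pointwise_near h0 R hT x)
    refine this.trans (le_of_eq ?_)
    have e : ∫ x, (fun x => ρ x ^ (5 / 3 : ℝ)) x + T ^ 10 * hcut (T • (x - R))
        = (∫ x, ρ x ^ (5 / 3 : ℝ)) + ∫ x, T ^ 10 * hcut (T • (x - R)) := integral_add h2 hi3
    simp only [Pi.add_apply]
    rw [e, integral_const_mul, integral_hcut_scaled R hT]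
    have : T ^ 10 * ((T ^ 3)⁻¹ * Hc) = T ^ 7 * Hc := by
      field_simp
    rw [this]
  have e2 : (T ^ 3) ^ 2 * T = T ^ 7 := by ring
  rw [e2] at hk
  linarith

/-- Thomas-Fermi lower bound for many nuclei of total charge `T^3`. -/
lemma multi (h0 : ∀ x, 0 ≤ ρ x) (h1 : Integrable ρ)
    (h2 : Integrable fun x => ρ x ^ (5 / 3 : ℝ)) {k : ℕ} {z : Fin k → ℝ} (R : Fin k → E3)
    (hz : ∀ j, 0 < z j) {T : ℝ} (hT : 0 < T) (hsum : ∑ j, z j = T ^ 3) :
    (∫ x, (∑ j, z j / ‖x - R j‖) * ρ x) ≤ (∫ x, ρ x ^ (5 / 3 : ℝ))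
      + 1 / 2 * (∫ p : E3 × E3, ρ p.1 * ρ p.2 / ‖p.1 - p.2‖) + (1 + Hc) * T ^ 7 := by
  set M := (∫ x, ρ x ^ (5 / 3 : ℝ))
      + 1 / 2 * (∫ p : E3 × E3, ρ p.1 * ρ p.2 / ‖p.1 - p.2‖) + (1 + Hc) * T ^ 7 with hM
  have e : ∫ x, (∑ j, z j / ‖x - R j‖) * ρ x = ∑ j, z j * ∫ x, ρ x / ‖x - R j‖ := by
    have e1 : ∀ x, (∑ j, z j / ‖x - R j‖) * ρ x = ∑ j, z j * (ρ x / ‖x - R j‖) := by
      intro x
      rw [Finset.sum_mul]
      refine Finset.sum_congr rfl fun j _ => ?_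
      ring
    simp_rw [e1]
    rw [integral_finsetSum _ fun j _ => (integrable_div_norm h0 h1 h2 (R j)).const_mul _]
    refine Finset.sum_congr rfl fun j _ => ?_
    rw [integral_const_mul]
  rw [e]
  have hT3 : 0 < T ^ 3 := by positivity
  have h3 : ∀ j, z j * (∫ x, ρ x / ‖x - R j‖) ≤ z j / T ^ 3 * M := by
    intro j
    have h := single h0 h1 h2 (R j) hT
    have h' := mul_le_mul_of_nonneg_left h (div_nonneg (hz j).le hT3.le)
    refine le_trans (le_of_eq ?_) h'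
    field_simp
  calc ∑ j, z j * ∫ x, ρ x / ‖x - R j‖ ≤ ∑ j, z j / T ^ 3 * M := Finset.sum_le_sum fun j _ => h3 j
    _ = M := by
      rw [← Finset.sum_mul, ← Finset.sum_div, hsum, div_self hT3.ne', one_mul]

end Pool.Agent.H7R3.TF
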