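import Mathlib
import Pool.Agent.H7R3.TF.TC

set_option autoImplicit false

open MeasureTheory Set Filter
open scoped ENNReal NNReal Topology ContDiff

namespace Pool.Agent.H7R3.TF

/-- test orbitals: smooth, compactly supported, normalised -/
structure Orb (h : E3 → ℝ) : Prop where
  smooth : ContDiff ℝ ∞ h
  compact : HasCompactSupport h
  norm : ∫ x, h x ^ 2 = 1

/-- unit vectors -/
noncomputable def ev (a : Fin 3) : E3 := EuclideanSpace.single a (1 : ℝ)

/-- kinetic energy of an orbital -/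
noncomputable def kin (h : E3 → ℝ) : ℝ := ∑ a : Fin 3, ∫ x, (fderiv ℝ h x (ev a)) ^ 2

lemma continuous_fd {h : E3 → ℝ} (hh : ContDiff ℝ ∞ h) (v : E3) : Continuous fun x => fderiv ℝ h x v := by
  have : Continuous (fderiv ℝ h) := hh.continuous_fderiv (by simp)
  exact this.clm_apply continuous_const

lemma compact_fd {h : E3 → ℝ} (hh : HasCompactSupport h) (v : E3) : HasCompactSupport fun x => fderiv ℝ h x v :=
  hh.fderiv_apply ℝ v

lemma Orb.int_sq {h : E3 → ℝ} (o : Orb h) : Integrable fun x => h x ^ 2 := by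
  have hc : Continuous fun x => h x * h x := o.smooth.continuous.mul o.smooth.continuous
  have hs : HasCompactSupport fun x => h x * h x := o.compact.mul_left
  have := hc.integrable_of_hasCompactSupport hs (μ := volume)
  simpa [sq] using this

lemma Orb.int_fd {h : E3 → ℝ} (o : Orb h) (v : E3) : Integrable fun x => (fderiv ℝ h x v) ^ 2 := by
  have hc : Continuous fun x => fderiv ℝ h x v * fderiv ℝ h x v :=
    (continuous_fd o.smooth v).mul (continuous_fd o.smooth v)
  have hs : HasCompactSupport fun x => fderiv ℝ h x v * fderiv ℝ h x v := (compact_fd o.compact v).mul_left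
  have := hc.integrable_of_hasCompactSupport hs (μ := volume)
  simpa [sq] using this

lemma Orb.int_coul {h : E3 → ℝ} (o : Orb h) (R : E3) : Integrable fun x => h x ^ 2 / ‖x - R‖ := by
  refine integrable_div_norm (fun x => sq_nonneg _) o.int_sq ?_ R
  have hc : Continuous fun x => (h x ^ 2) ^ (5 / 3 : ℝ) :=
    (o.smooth.continuous.pow 2).rpow_const (fun x => Or.inr (by norm_num))
  refine hc.integrable_of_hasCompactSupport ?_
  refine o.compact.mono ?_
  intro x hx
  simp only [Function.mem_support, ne_eq] at hx ⊢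
  intro h0
  apply hx
  rw [h0]
  norm_num

section product

variable {N : ℕ} (h : Fin N → E3 → ℝ)

/-- product state -/
noncomputable def Pst (x : Fin N → E3) : ℝ := ∏ l, h l (x l)

lemma fderiv_Pst (hh : ∀ l, Orb (h l)) (x : Fin N → E3) (j : Fin N) (v : E3) :
    fderiv ℝ (Pst h) x (Pi.single j v)
      = ∏ l, (if l = j then fderiv ℝ (h l) (x l) v else h l (x l)) := by
  have h1 : ∀ l ∈ (Finset.univ : Finset (Fin N)), HasFDerivAt (fun x : Fin N → E3 => h l (x l))
      ((fderiv ℝ (h l) (x l)).comp (ContinuousLinearMap.proj l)) x := by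
    intro l _
    have hd : HasFDerivAt (h l) (fderiv ℝ (h l) (x l)) (x l) :=
      ((hh l).smooth.differentiable (by simp) (x l)).hasFDerivAt
    have hp : HasFDerivAt (fun x : Fin N → E3 => x l) (ContinuousLinearMap.proj (R := ℝ) (φ := fun _ : Fin N => E3) l) x :=
      (ContinuousLinearMap.proj (R := ℝ) (φ := fun _ : Fin N => E3) l).hasFDerivAt
    exact hd.comp x hp
  have h2 := (HasFDerivAt.finsetProd h1).fderiv
  have e0 : Pst h = fun x => ∏ l, h l (x l) := rfl
  rw [e0, h2]
  simp only [sum_apply, smul_apply,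
    ContinuousLinearMap.comp_apply, ContinuousLinearMap.proj_apply, smul_eq_mul]
  rw [Finset.sum_eq_single j]
  · rw [Pi.single_eq_same]
    rw [← Finset.mul_prod_erase Finset.univ _ (Finset.mem_univ j), if_pos rfl, mul_comm]
    congr 1
    refine Finset.prod_congr rfl fun l hl => ?_
    rw [if_neg (Finset.ne_of_mem_erase hl)]
  · intro l _ hl
    rw [Pi.single_eq_of_ne hl, map_zero, mul_zero]
  · intro hj; exact absurd (Finset.mem_univ j) hj

lemma int_prod_upd (F : E3 → ℝ) (hh : ∀ l, Orb (h l)) (hF : Integrable F) (j : Fin N) :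
    Integrable (fun x : Fin N → E3 => ∏ l, (if l = j then F (x l) else h l (x l) ^ 2)) ∧
    ∫ x : Fin N → E3, ∏ l, (if l = j then F (x l) else h l (x l) ^ 2) = ∫ x, F x := by
  set G : Fin N → E3 → ℝ := fun l y => if l = j then F y else h l y ^ 2 with hG
  have hGi : ∀ l, Integrable (G l) := by
    intro l
    by_cases hl : l = j
    · simp only [hG, hl, if_true]; exact hF
    · simp only [hG, hl, if_false]; exact (hh l).int_sq
  constructor
  · have := Integrable.fintype_prod (μ := fun _ : Fin N => (volume : Measure E3)) hGi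
    exact this
  · have e : ∫ x : Fin N → E3, ∏ l, G l (x l) = ∏ l, ∫ x, G l x := integral_fintype_prod_volume_eq_prod G
    have e2 : ∏ l, ∫ x, G l x = ∫ x, F x := by
      rw [← Finset.mul_prod_erase Finset.univ _ (Finset.mem_univ j)]
      have : ∏ l ∈ Finset.univ.erase j, ∫ x, G l x = 1 := by
        refine Finset.prod_eq_one fun l hl => ?_
        simp only [hG, if_neg (Finset.ne_of_mem_erase hl)]
        exact (hh l).norm
      rw [this, mul_one]
      simp [hG]
    rw [← e2, ← e]

lemma kin_term (hh : ∀ l, Orb (h l)) (j : Fin N) (v : E3) :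
    Integrable (fun x : Fin N → E3 => (fderiv ℝ (Pst h) x (Pi.single j v)) ^ 2) ∧
    ∫ x : Fin N → E3, (fderiv ℝ (Pst h) x (Pi.single j v)) ^ 2 = ∫ x, (fderiv ℝ (h j) x v) ^ 2 := by
  have e : (fun x : Fin N → E3 => (fderiv ℝ (Pst h) x (Pi.single j v)) ^ 2)
      = fun x => ∏ l, (if l = j then (fun y => (fderiv ℝ (h j) y v) ^ 2) (x l) else h l (x l) ^ 2) := by
    ext x
    rw [fderiv_Pst h hh, ← Finset.prod_pow]
    refine Finset.prod_congr rfl fun l _ => ?_
    by_cases hl : l = j
    · subst hl; simp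
    · simp [hl]
  rw [e]
  exact int_prod_upd h _ hh ((hh j).int_fd v) j

lemma sq_term (hh : ∀ l, Orb (h l)) :
    Integrable (fun x : Fin N → E3 => Pst h x ^ 2) ∧ ∫ x : Fin N → E3, Pst h x ^ 2 = 1 := by
  have e : (fun x : Fin N → E3 => Pst h x ^ 2) = fun x => ∏ l, (fun y => h l y ^ 2) (x l) := by
    ext x
    unfold Pst
    rw [← Finset.prod_pow]
  constructor
  · rw [e]
    exact Integrable.fintype_prod (μ := fun _ : Fin N => (volume : Measure E3))
      (f := fun l y => h l y ^ 2) (fun l => (hh l).int_sq)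
  · rw [e, integral_fintype_prod_volume_eq_prod (fun l y => h l y ^ 2)]
    exact Finset.prod_eq_one fun l _ => (hh l).norm

lemma coul_term (hh : ∀ l, Orb (h l)) (j : Fin N) (R : E3) :
    Integrable (fun x : Fin N → E3 => Pst h x ^ 2 / ‖x j - R‖) ∧
    ∫ x : Fin N → E3, Pst h x ^ 2 / ‖x j - R‖ = ∫ x, h j x ^ 2 / ‖x - R‖ := by
  have e : (fun x : Fin N → E3 => Pst h x ^ 2 / ‖x j - R‖)
      = fun x => ∏ l, (if l = j then (fun y => h j y ^ 2 / ‖y - R‖) (x l) else h l (x l) ^ 2) := by
    ext x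
    unfold Pst
    rw [← Finset.prod_pow, ← Finset.mul_prod_erase Finset.univ _ (Finset.mem_univ j),
      ← Finset.mul_prod_erase Finset.univ (fun l => if l = j then (fun y => h j y ^ 2 / ‖y - R‖) (x l) else h l (x l) ^ 2)
        (Finset.mem_univ j)]
    simp only [if_true]
    have : ∏ l ∈ Finset.univ.erase j, (if l = j then (h j (x l)) ^ 2 / ‖x l - R‖ else h l (x l) ^ 2)
        = ∏ l ∈ Finset.univ.erase j, h l (x l) ^ 2 := by
      refine Finset.prod_congr rfl fun l hl => ?_
      rw [if_neg (Finset.ne_of_mem_erase hl)]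
    rw [this]
    ring
  rw [e]
  exact int_prod_upd h _ hh ((hh j).int_coul R) j

/-- separation of the orbitals -/
def Sep (h : Fin N → E3 → ℝ) (D : ℝ) : Prop :=
  ∀ i j, i ≠ j → ∀ x y, x ∈ tsupport (h i) → y ∈ tsupport (h j) → D ≤ ‖x - y‖

/-- electron repulsion -/
noncomputable def rep (x : Fin N → E3) : ℝ := ∑ i, ∑ j ∈ Finset.Ioi i, 1 / ‖x i - x j‖

lemma rep_nonneg (x : Fin N → E3) : 0 ≤ rep x :=
  Finset.sum_nonneg fun i _ => Finset.sum_nonneg fun j _ => by positivity

lemma rep_term (hh : ∀ l, Orb (h l)) {D : ℝ} (hD : 0 < D) (hs : Sep h D) :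
    Integrable (fun x : Fin N → E3 => rep x * Pst h x ^ 2) ∧
    ∫ x : Fin N → E3, rep x * Pst h x ^ 2 ≤ (N : ℝ) ^ 2 / D := by
  have hb : ∀ x : Fin N → E3, rep x * Pst h x ^ 2 ≤ (N : ℝ) ^ 2 / D * Pst h x ^ 2 := by
    intro x
    by_cases hx : Pst h x = 0
    · rw [hx]; simp
    · have hne : ∀ l, h l (x l) ≠ 0 := fun l => Finset.prod_ne_zero_iff.1 hx l (Finset.mem_univ l)
      have hr : rep x ≤ (N : ℝ) ^ 2 / D := by
        calc rep x ≤ ∑ i : Fin N, ∑ j ∈ Finset.Ioi i, 1 / D := by
              refine Finset.sum_le_sum fun i _ => Finset.sum_le_sum fun j hj => ?_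
              have hij : i ≠ j := (Finset.mem_Ioi.1 hj).ne
              have := hs i j hij (x i) (x j) (subset_tsupport _ (hne i)) (subset_tsupport _ (hne j))
              exact one_div_le_one_div_of_le hD this
          _ ≤ ∑ i : Fin N, ∑ j : Fin N, 1 / D := by
              refine Finset.sum_le_sum fun i _ => ?_
              refine Finset.sum_le_sum_of_subset_of_nonneg (Finset.subset_univ _) fun j _ _ => ?_
              positivity
          _ = (N : ℝ) ^ 2 / D := by
              simp only [Finset.sum_const, Finset.card_univ, Fintype.card_fin, nsmul_eq_mul]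
              ring
      exact mul_le_mul_of_nonneg_right hr (sq_nonneg _)
  have hsq := sq_term h hh
  have hint : Integrable (fun x : Fin N → E3 => rep x * Pst h x ^ 2) := by
    refine (hsq.1.const_mul ((N : ℝ) ^ 2 / D)).mono' ?_ (Eventually.of_forall fun x => ?_)
    · have hm : Measurable (fun x : Fin N → E3 => rep x) := by
        unfold rep
        refine Finset.measurable_sum _ fun i _ => Finset.measurable_sum _ fun j _ => ?_
        fun_prop
      exact hm.aestronglyMeasurable.mul hsq.1.aestronglyMeasurable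
    · rw [Real.norm_of_nonneg (mul_nonneg (rep_nonneg x) (sq_nonneg _))]
      exact hb x
  refine ⟨hint, ?_⟩
  calc ∫ x : Fin N → E3, rep x * Pst h x ^ 2 ≤ ∫ x : Fin N → E3, (N : ℝ) ^ 2 / D * Pst h x ^ 2 :=
        integral_mono hint (hsq.1.const_mul _) hb
    _ = (N : ℝ) ^ 2 / D := by rw [integral_const_mul, hsq.2, mul_one]

/-- the energy density of a product state -/
noncomputable def edens {k : ℕ} (z : Fin k → ℝ) (R : Fin k → E3) (U : ℝ) (x : Fin N → E3) : ℝ :=
  (∑ j : Fin N, ∑ a : Fin 3, (fderiv ℝ (Pst h) x (Pi.single j (ev a))) ^ 2)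
    + (-(∑ j : Fin N, ∑ i, z i / ‖x j - R i‖) + rep x + U) * Pst h x ^ 2

lemma edens_bound (hh : ∀ l, Orb (h l)) {D : ℝ} (hD : 0 < D) (hs : Sep h D)
    {k : ℕ} (z : Fin k → ℝ) (R : Fin k → E3) (U : ℝ) :
    Integrable (edens h z R U) ∧
    ∫ x, edens h z R U x ≤ (∑ j, kin (h j)) - (∑ j, ∑ i, z i * ∫ x, h j x ^ 2 / ‖x - R i‖)
      + (N : ℝ) ^ 2 / D + U := by
  have i1 : Integrable (fun x : Fin N → E3 => ∑ j : Fin N, ∑ a : Fin 3, (fderiv ℝ (Pst h) x (Pi.single j (ev a))) ^ 2) :=
    integrable_finsetSum _ fun j _ => integrable_finsetSum _ fun a _ => (kin_term h hh j (ev a)).1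
  have e1 : ∫ x : Fin N → E3, ∑ j : Fin N, ∑ a : Fin 3, (fderiv ℝ (Pst h) x (Pi.single j (ev a))) ^ 2
      = ∑ j, kin (h j) := by
    rw [integral_finsetSum _ fun j _ => integrable_finsetSum _ fun a _ => (kin_term h hh j (ev a)).1]
    refine Finset.sum_congr rfl fun j _ => ?_
    rw [integral_finsetSum _ fun a _ => (kin_term h hh j (ev a)).1]
    unfold kin
    exact Finset.sum_congr rfl fun a _ => (kin_term h hh j (ev a)).2
  have i2 : Integrable (fun x : Fin N → E3 => ∑ j : Fin N, ∑ i, z i * (Pst h x ^ 2 / ‖x j - R i‖)) :=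
    integrable_finsetSum _ fun j _ => integrable_finsetSum _ fun i _ => (coul_term h hh j (R i)).1.const_mul _
  have e2 : ∫ x : Fin N → E3, ∑ j : Fin N, ∑ i, z i * (Pst h x ^ 2 / ‖x j - R i‖)
      = ∑ j, ∑ i, z i * ∫ x, h j x ^ 2 / ‖x - R i‖ := by
    rw [integral_finsetSum _ fun j _ => integrable_finsetSum _ fun i _ => (coul_term h hh j (R i)).1.const_mul _]
    refine Finset.sum_congr rfl fun j _ => ?_
    rw [integral_finsetSum _ fun i _ => (coul_term h hh j (R i)).1.const_mul _]
    refine Finset.sum_congr rfl fun i _ => ?_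
    rw [integral_const_mul, (coul_term h hh j (R i)).2]
  have i3 := rep_term h hh hD hs
  have i4 := sq_term h hh
  have e : edens h z R U = fun x : Fin N → E3 =>
      (((∑ j : Fin N, ∑ a : Fin 3, (fderiv ℝ (Pst h) x (Pi.single j (ev a))) ^ 2)
        - ∑ j : Fin N, ∑ i, z i * (Pst h x ^ 2 / ‖x j - R i‖)) + rep x * Pst h x ^ 2) + U * Pst h x ^ 2 := by
    ext x
    unfold edens
    have : (∑ j : Fin N, ∑ i, z i / ‖x j - R i‖) * Pst h x ^ 2
        = ∑ j : Fin N, ∑ i, z i * (Pst h x ^ 2 / ‖x j - R i‖) := by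
      rw [Finset.sum_mul]
      refine Finset.sum_congr rfl fun j _ => ?_
      rw [Finset.sum_mul]
      refine Finset.sum_congr rfl fun i _ => ?_
      ring
    rw [← this]
    ring
  have ia : Integrable (fun x : Fin N → E3 => (∑ j : Fin N, ∑ a : Fin 3, (fderiv ℝ (Pst h) x (Pi.single j (ev a))) ^ 2)
        - ∑ j : Fin N, ∑ i, z i * (Pst h x ^ 2 / ‖x j - R i‖)) := i1.sub i2
  have ib : Integrable (fun x : Fin N → E3 => ((∑ j : Fin N, ∑ a : Fin 3, (fderiv ℝ (Pst h) x (Pi.single j (ev a))) ^ 2)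
        - ∑ j : Fin N, ∑ i, z i * (Pst h x ^ 2 / ‖x j - R i‖)) + rep x * Pst h x ^ 2) := ia.add i3.1
  have ic : Integrable (fun x : Fin N → E3 => U * Pst h x ^ 2) := i4.1.const_mul _
  rw [e]
  refine ⟨ib.add ic, ?_⟩
  rw [integral_add ib ic, integral_add ia i3.1, integral_sub i1 i2, e1, e2, integral_const_mul, i4.2, mul_one]
  linarith [i3.2]

end product

end Pool.Agent.H7R3.TF
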