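import Mathlib
import Pool.Agent.H7R3.TF.TD

set_option autoImplicit false

open MeasureTheory Set Filter
open scoped ENNReal NNReal Topology ContDiff

namespace Pool.Agent.H7R3.TF

variable {N : ℕ}

/-- Slater determinant -/
noncomputable def Sdet (f : Fin N → E3 → ℝ) (x : Fin N → E3) : ℝ :=
  ∑ σ : Equiv.Perm (Fin N), ((Equiv.Perm.sign σ : ℤ) : ℝ) * Pst (fun l => f (σ l)) x

lemma Sdet_eq_det (f : Fin N → E3 → ℝ) (x : Fin N → E3) :
    Sdet f x = Matrix.det (Matrix.of fun a i => f a (x i)) := by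
  rw [Matrix.det_apply']
  rfl

lemma Sdet_perm (f : Fin N → E3 → ℝ) (x : Fin N → E3) (τ : Equiv.Perm (Fin N)) :
    Sdet f (x ∘ τ) = ((Equiv.Perm.sign τ : ℤ) : ℝ) * Sdet f x := by
  rw [Sdet_eq_det, Sdet_eq_det]
  rw [← Matrix.det_permute']
  rfl

lemma sq_sum_disjoint {ι : Type*} (s : Finset ι) (ε a : ι → ℝ)
    (hε : ∀ i, ε i ^ 2 = 1) (ha : ∀ i ∈ s, ∀ j ∈ s, i ≠ j → a i * a j = 0) :
    (∑ i ∈ s, ε i * a i) ^ 2 = ∑ i ∈ s, a i ^ 2 := by
  classical
  rw [sq, Finset.sum_mul_sum]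
  refine Finset.sum_congr rfl fun i hi => ?_
  rw [Finset.sum_eq_single i]
  · have := hε i
    calc ε i * a i * (ε i * a i) = ε i ^ 2 * a i ^ 2 := by ring
      _ = a i ^ 2 := by rw [this, one_mul]
  · intro j hj hij
    have := ha i hi j hj hij.symm
    calc ε i * a i * (ε j * a j) = ε i * ε j * (a i * a j) := by ring
      _ = 0 := by rw [this, mul_zero]
  · intro h; exact absurd hi h

lemma sign_sq (σ : Equiv.Perm (Fin N)) : (((Equiv.Perm.sign σ : ℤ) : ℝ)) ^ 2 = 1 := by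
  rcases Int.units_eq_one_or (Equiv.Perm.sign σ) with h | h <;> rw [h] <;> simp

section
variable {f : Fin N → E3 → ℝ} (hf : ∀ l, Orb (f l)) {D : ℝ} (hD : 0 < D) (hs : Sep f D)

include hD hs in
lemma perm_eq {σ τ : Equiv.Perm (Fin N)} {x : Fin N → E3}
    (h1 : ∀ l, x l ∈ tsupport (f (σ l))) (h2 : ∀ l, x l ∈ tsupport (f (τ l))) : σ = τ := by
  ext l
  by_contra hne
  have hne' : σ l ≠ τ l := fun h => hne (by rw [h])
  have := hs (σ l) (τ l) hne' (x l) (x l) (h1 l) (h2 l)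
  rw [sub_self, norm_zero] at this
  linarith

include hD hs in
lemma Pst_mul_zero {σ τ : Equiv.Perm (Fin N)} (hst : σ ≠ τ) (x : Fin N → E3) :
    Pst (fun l => f (σ l)) x * Pst (fun l => f (τ l)) x = 0 := by
  by_contra hne
  have h1 := left_ne_zero_of_mul hne
  have h2 := right_ne_zero_of_mul hne
  apply hst
  refine perm_eq hD hs (x := x) (fun l => ?_) (fun l => ?_)
  · exact subset_tsupport _ (Finset.prod_ne_zero_iff.1 h1 l (Finset.mem_univ l))
  · exact subset_tsupport _ (Finset.prod_ne_zero_iff.1 h2 l (Finset.mem_univ l))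

lemma mem_of_fd_ne {h : Fin N → E3 → ℝ} (hh : ∀ l, Orb (h l)) {x : Fin N → E3} {j : Fin N} {v : E3}
    (hne : fderiv ℝ (Pst h) x (Pi.single j v) ≠ 0) (l : Fin N) : x l ∈ tsupport (h l) := by
  rw [fderiv_Pst h hh] at hne
  have := Finset.prod_ne_zero_iff.1 hne l (Finset.mem_univ l)
  by_cases hl : l = j
  · rw [if_pos hl] at this
    have h2 : fderiv ℝ (h l) (x l) ≠ 0 := by
      intro h0
      rw [h0] at this
      exact this rfl
    exact support_fderiv_subset ℝ (Function.mem_support.2 h2)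
  · rw [if_neg hl] at this
    exact subset_tsupport _ this

include hf hD hs in
lemma fd_mul_zero {σ τ : Equiv.Perm (Fin N)} (hst : σ ≠ τ) (x : Fin N → E3) (j : Fin N) (v : E3) :
    fderiv ℝ (Pst (fun l => f (σ l))) x (Pi.single j v) * fderiv ℝ (Pst (fun l => f (τ l))) x (Pi.single j v) = 0 := by
  by_contra hne
  have h1 := left_ne_zero_of_mul hne
  have h2 := right_ne_zero_of_mul hne
  apply hst
  exact perm_eq hD hs (x := x) (mem_of_fd_ne (fun l => hf (σ l)) h1) (mem_of_fd_ne (fun l => hf (τ l)) h2)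

lemma contDiff_Pst {h : Fin N → E3 → ℝ} (hh : ∀ l, Orb (h l)) : ContDiff ℝ ∞ (Pst h) := by
  unfold Pst
  refine contDiff_prod fun l _ => ?_
  exact (hh l).smooth.comp (contDiff_apply ℝ E3 l)

include hf in
lemma contDiff_Sdet : ContDiff ℝ ∞ (Sdet f) := by
  unfold Sdet
  refine ContDiff.sum fun σ _ => ?_
  exact contDiff_const.mul (contDiff_Pst fun l => hf (σ l))

include hf in
lemma fderiv_Sdet (x : Fin N → E3) (v : Fin N → E3) :
    fderiv ℝ (Sdet f) x v = ∑ σ : Equiv.Perm (Fin N), ((Equiv.Perm.sign σ : ℤ) : ℝ) * fderiv ℝ (Pst (fun l => f (σ l))) x v := by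
  have h1 : ∀ σ ∈ (Finset.univ : Finset (Equiv.Perm (Fin N))), HasFDerivAt
      (fun x => ((Equiv.Perm.sign σ : ℤ) : ℝ) * Pst (fun l => f (σ l)) x)
      (((Equiv.Perm.sign σ : ℤ) : ℝ) • fderiv ℝ (Pst (fun l => f (σ l))) x) x := by
    intro σ _
    exact (((contDiff_Pst fun l => hf (σ l)).differentiable (by simp) x).hasFDerivAt).const_mul _
  have h2 := HasFDerivAt.fun_sum h1
  have h3 : fderiv ℝ (Sdet f) x = _ := h2.fderiv
  rw [h3]
  simp

include hD hs in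
lemma Sdet_sq (x : Fin N → E3) : Sdet f x ^ 2 = ∑ σ : Equiv.Perm (Fin N), Pst (fun l => f (σ l)) x ^ 2 := by
  unfold Sdet
  exact sq_sum_disjoint _ _ _ sign_sq fun σ _ τ _ h => Pst_mul_zero hD hs h x

include hf hD hs in
lemma fderiv_Sdet_sq (x : Fin N → E3) (j : Fin N) (v : E3) :
    (fderiv ℝ (Sdet f) x (Pi.single j v)) ^ 2
      = ∑ σ : Equiv.Perm (Fin N), (fderiv ℝ (Pst (fun l => f (σ l))) x (Pi.single j v)) ^ 2 := by
  rw [fderiv_Sdet hf]
  exact sq_sum_disjoint _ _ _ sign_sq fun σ _ τ _ h => fd_mul_zero hf hD hs h x j v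

lemma Sep.perm {f : Fin N → E3 → ℝ} {D : ℝ} (hs : Sep f D) (σ : Equiv.Perm (Fin N)) : Sep (fun l => f (σ l)) D := by
  intro i j hij x y hx hy
  exact hs (σ i) (σ j) (fun h => hij (σ.injective h)) x y hx hy

include hf hD hs in
/-- energy of the Slater determinant -/
lemma Sdet_energy {k : ℕ} (z : Fin k → ℝ) (R : Fin k → E3) (U : ℝ) :
    ∫ x : Fin N → E3, ((∑ j : Fin N, ∑ a : Fin 3, (fderiv ℝ (Sdet f) x (Pi.single j (ev a))) ^ 2)
      + (-(∑ j : Fin N, ∑ i, z i / ‖x j - R i‖) + rep x + U) * Sdet f x ^ 2)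
    ≤ (N.factorial : ℝ) * ((∑ j, kin (f j)) - (∑ j, ∑ i, z i * ∫ x, f j x ^ 2 / ‖x - R i‖)
      + (N : ℝ) ^ 2 / D + U) := by
  have e : ∀ x : Fin N → E3, ((∑ j : Fin N, ∑ a : Fin 3, (fderiv ℝ (Sdet f) x (Pi.single j (ev a))) ^ 2)
      + (-(∑ j : Fin N, ∑ i, z i / ‖x j - R i‖) + rep x + U) * Sdet f x ^ 2)
      = ∑ σ : Equiv.Perm (Fin N), edens (fun l => f (σ l)) z R U x := by
    intro x
    unfold edens
    rw [Finset.sum_add_distrib, ← Finset.mul_sum, ← Sdet_sq hD hs]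
    congr 1
    calc ∑ j : Fin N, ∑ a : Fin 3, (fderiv ℝ (Sdet f) x (Pi.single j (ev a))) ^ 2
        = ∑ j : Fin N, ∑ a : Fin 3, ∑ σ : Equiv.Perm (Fin N),
          (fderiv ℝ (Pst (fun l => f (σ l))) x (Pi.single j (ev a))) ^ 2 :=
          Finset.sum_congr rfl fun j _ => Finset.sum_congr rfl fun a _ => fderiv_Sdet_sq hf hD hs x j (ev a)
      _ = ∑ j : Fin N, ∑ σ : Equiv.Perm (Fin N), ∑ a : Fin 3,
          (fderiv ℝ (Pst (fun l => f (σ l))) x (Pi.single j (ev a))) ^ 2 :=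
          Finset.sum_congr rfl fun j _ => Finset.sum_comm
      _ = ∑ σ : Equiv.Perm (Fin N), ∑ j : Fin N, ∑ a : Fin 3,
          (fderiv ℝ (Pst (fun l => f (σ l))) x (Pi.single j (ev a))) ^ 2 := Finset.sum_comm
  simp_rw [e]
  rw [integral_finsetSum _ fun σ _ => (edens_bound _ (fun l => hf (σ l)) hD (hs.perm σ) z R U).1]
  calc ∑ σ : Equiv.Perm (Fin N), ∫ x, edens (fun l => f (σ l)) z R U x
      ≤ ∑ σ : Equiv.Perm (Fin N), ((∑ j, kin (f j)) - (∑ j, ∑ i, z i * ∫ x, f j x ^ 2 / ‖x - R i‖)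
      + (N : ℝ) ^ 2 / D + U) := by
        refine Finset.sum_le_sum fun σ _ => ?_
        refine (edens_bound _ (fun l => hf (σ l)) hD (hs.perm σ) z R U).2.trans (le_of_eq ?_)
        have e1 : ∑ j, kin (f (σ j)) = ∑ j, kin (f j) := Equiv.sum_comp σ (fun j => kin (f j))
        have e2 : ∑ j, ∑ i, z i * ∫ x, f (σ j) x ^ 2 / ‖x - R i‖ = ∑ j, ∑ i, z i * ∫ x, f j x ^ 2 / ‖x - R i‖ :=
          Equiv.sum_comp σ (fun j => ∑ i, z i * ∫ x, f j x ^ 2 / ‖x - R i‖)
        rw [e1, e2]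
    _ = _ := by
        rw [Finset.sum_const, Finset.card_univ, Fintype.card_perm, Fintype.card_fin, nsmul_eq_mul]

include hf hD hs in
lemma Sdet_norm : ∫ x : Fin N → E3, Sdet f x ^ 2 = (N.factorial : ℝ) := by
  simp_rw [Sdet_sq hD hs]
  rw [integral_finsetSum _ fun σ _ => (sq_term _ (fun l => hf (σ l))).1]
  have : ∀ σ ∈ (Finset.univ : Finset (Equiv.Perm (Fin N))), ∫ x : Fin N → E3, Pst (fun l => f (σ l)) x ^ 2 = 1 :=
    fun σ _ => (sq_term _ (fun l => hf (σ l))).2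
  rw [Finset.sum_congr rfl this, Finset.sum_const, Finset.card_univ, Fintype.card_perm, Fintype.card_fin,
    nsmul_eq_mul, mul_one]

lemma compact_Pst {h : Fin N → E3 → ℝ} (hh : ∀ l, Orb (h l)) : HasCompactSupport (Pst h) := by
  refine HasCompactSupport.intro (K := Set.univ.pi fun l => tsupport (h l))
    (isCompact_univ_pi fun l => (hh l).compact) ?_
  intro x hx
  by_contra hne
  apply hx
  intro l _
  exact subset_tsupport _ (Finset.prod_ne_zero_iff.1 hne l (Finset.mem_univ l))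

include hf in
lemma compact_Sdet : HasCompactSupport (Sdet f) := by
  refine HasCompactSupport.intro (K := ⋃ σ : Equiv.Perm (Fin N), tsupport (Pst fun l => f (σ l)))
    (isCompact_iUnion fun σ => compact_Pst fun l => hf (σ l)) ?_
  intro x hx
  unfold Sdet
  refine Finset.sum_eq_zero fun σ _ => ?_
  have : Pst (fun l => f (σ l)) x = 0 := by
    by_contra hne
    exact hx (mem_iUnion.2 ⟨σ, subset_tsupport _ hne⟩)
  rw [this, mul_zero]

end

end Pool.Agent.H7R3.TF
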