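import Mathlib
import Pool.Agent.H7R3.TF.TE

set_option autoImplicit false

open MeasureTheory Set Filter
open scoped ENNReal NNReal Topology ContDiff

namespace Pool.Agent.H7R3.TF

/-- existence of one orbital supported in the unit ball -/
lemma exists_base : ∃ χ : E3 → ℝ, Orb χ ∧ tsupport χ ⊆ Metric.closedBall 0 1 := by
  let φ : ContDiffBump (0 : E3) := ⟨1 / 2, 1, by norm_num, by norm_num⟩
  have hφs : ContDiff ℝ ∞ (φ : E3 → ℝ) := φ.contDiff
  have hφc : HasCompactSupport (φ : E3 → ℝ) := φ.hasCompactSupport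
  set I : ℝ := ∫ x, (φ x) ^ 2 with hI
  have hcont : Continuous fun x => (φ x) ^ 2 := hφs.continuous.pow 2
  have hIpos : 0 < I := by
    have hs : HasCompactSupport fun x => (φ x) ^ 2 := by
      have : (fun x => (φ x) ^ 2) = fun x => φ x * φ x := by ext x; ring
      rw [this]
      exact hφc.mul_left
    refine hcont.integral_pos_of_hasCompactSupport_nonneg_nonzero hs (fun x => sq_nonneg _) (x := 0) ?_
    have : φ 0 = 1 := φ.one_of_mem_closedBall (by simp [φ])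
    rw [this]; norm_num
  refine ⟨fun x => (√I)⁻¹ * φ x, ⟨contDiff_const.mul hφs, hφc.mul_left, ?_⟩, ?_⟩
  · have : ∀ x, ((√I)⁻¹ * φ x) ^ 2 = I⁻¹ * (φ x) ^ 2 := by
      intro x
      rw [mul_pow, inv_pow, Real.sq_sqrt hIpos.le]
    simp_rw [this]
    rw [integral_const_mul, ← hI, inv_mul_cancel₀ hIpos.ne']
  · have h1 : tsupport (fun x => (√I)⁻¹ * φ x) ⊆ tsupport (φ : E3 → ℝ) := by
      refine closure_mono ?_
      intro x hx
      simp only [Function.mem_support, ne_eq, mul_eq_zero, not_or] at hx ⊢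
      exact hx.2
    refine h1.trans ?_
    rw [φ.tsupport_eq]

/-- the scaled orbital -/
noncomputable def gs (χ : E3 → ℝ) (lam : ℝ) (X : E3) (x : E3) : ℝ :=
  (√(lam⁻¹)) ^ 3 * χ (lam⁻¹ • (x - X))

lemma amp_sq {lam : ℝ} (hl : 0 < lam) : ((√(lam⁻¹)) ^ 3) ^ 2 = (lam ^ 3)⁻¹ := by
  rw [← pow_mul, mul_comm 3 2, pow_mul, Real.sq_sqrt (inv_nonneg.2 hl.le), inv_pow]

lemma int_scaled (F : E3 → ℝ) {lam : ℝ} (hl : 0 < lam) (X : E3) :
    ∫ x, F (lam⁻¹ • (x - X)) = lam ^ 3 * ∫ x, F x := by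
  rw [integral_sub_right_eq_self (fun x => F (lam⁻¹ • x)) X, Measure.integral_comp_smul]
  simp only [finrank_euclideanSpace, Fintype.card_fin, smul_eq_mul]
  rw [inv_pow, inv_inv, abs_of_pos (by positivity)]

lemma smooth_gs {χ : E3 → ℝ} (o : Orb χ) (lam : ℝ) (X : E3) : ContDiff ℝ ∞ (gs χ lam X) := by
  have h : ContDiff ℝ ∞ (fun x : E3 => lam⁻¹ • (x - X)) :=
    (contDiff_id.sub contDiff_const).const_smul lam⁻¹
  exact contDiff_const.mul (o.smooth.comp h)

lemma tsupport_gs {χ : E3 → ℝ} (hs : tsupport χ ⊆ Metric.closedBall 0 1) {lam : ℝ} (hl : 0 < lam) (X : E3) :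
    tsupport (gs χ lam X) ⊆ Metric.closedBall X lam := by
  refine closure_minimal ?_ Metric.isClosed_closedBall
  intro x hx
  have h1 : χ (lam⁻¹ • (x - X)) ≠ 0 := by
    intro h0
    apply hx
    unfold gs
    rw [h0, mul_zero]
  have h2 := hs (subset_tsupport _ h1)
  rw [mem_closedBall_zero_iff, norm_smul, Real.norm_of_nonneg (inv_nonneg.2 hl.le),
    inv_mul_le_iff₀ hl, mul_one] at h2
  rwa [Metric.mem_closedBall, dist_eq_norm]

lemma orb_gs {χ : E3 → ℝ} (o : Orb χ) (hs : tsupport χ ⊆ Metric.closedBall 0 1) {lam : ℝ} (hl : 0 < lam) (X : E3) :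
    Orb (gs χ lam X) := by
  refine ⟨smooth_gs o lam X, ?_, ?_⟩
  · exact (isCompact_closedBall X lam).of_isClosed_subset (isClosed_tsupport _) (tsupport_gs hs hl X)
  · have : ∀ x, gs χ lam X x ^ 2 = (lam ^ 3)⁻¹ * (fun y => χ y ^ 2) (lam⁻¹ • (x - X)) := by
      intro x
      unfold gs
      rw [mul_pow, amp_sq hl]
    simp_rw [this]
    rw [integral_const_mul, int_scaled (fun y => χ y ^ 2) hl X, o.norm, mul_one,
      inv_mul_cancel₀ (by positivity)]

lemma fderiv_gs {χ : E3 → ℝ} (o : Orb χ) (lam : ℝ) (X : E3) (x v : E3) :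
    fderiv ℝ (gs χ lam X) x v = (√(lam⁻¹)) ^ 3 * (lam⁻¹ * fderiv ℝ χ (lam⁻¹ • (x - X)) v) := by
  have h1 : HasFDerivAt χ (fderiv ℝ χ (lam⁻¹ • (x - X))) (lam⁻¹ • (x - X)) :=
    (o.smooth.differentiable (by simp) _).hasFDerivAt
  have h2 : HasFDerivAt (fun y : E3 => lam⁻¹ • (y - X)) (lam⁻¹ • ContinuousLinearMap.id ℝ E3) x :=
    ((hasFDerivAt_id x).sub_const X).const_smul lam⁻¹
  have h3 := (h1.comp x h2).const_mul ((√(lam⁻¹)) ^ 3)
  have h4 : fderiv ℝ (gs χ lam X) x = _ := h3.fderiv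
  rw [h4]
  simp

lemma kin_gs {χ : E3 → ℝ} (o : Orb χ) {lam : ℝ} (hl : 0 < lam) (X : E3) :
    kin (gs χ lam X) = kin χ / lam ^ 2 := by
  unfold kin
  rw [Finset.sum_div]
  refine Finset.sum_congr rfl fun a _ => ?_
  have : ∀ x, (fderiv ℝ (gs χ lam X) x (ev a)) ^ 2
      = (lam ^ 3)⁻¹ * (lam ^ 2)⁻¹ * (fun y => (fderiv ℝ χ y (ev a)) ^ 2) (lam⁻¹ • (x - X)) := by
    intro x
    rw [fderiv_gs o, mul_pow, amp_sq hl, mul_pow, inv_pow]
    ring
  simp_rw [this]
  rw [integral_const_mul, int_scaled (fun y => (fderiv ℝ χ y (ev a)) ^ 2) hl X]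
  field_simp

lemma kin_nonneg (h : E3 → ℝ) : 0 ≤ kin h :=
  Finset.sum_nonneg fun _ _ => integral_nonneg fun _ => sq_nonneg _

lemma coul_ge {h : E3 → ℝ} (o : Orb h) {lam : ℝ} {X : E3}
    (hs : tsupport h ⊆ Metric.closedBall X lam) : 1 / lam ≤ ∫ x, h x ^ 2 / ‖x - X‖ := by
  have h1 : ∫ x, 1 / lam * h x ^ 2 ≤ ∫ x, h x ^ 2 / ‖x - X‖ := by
    refine integral_mono_ae (o.int_sq.const_mul _) (o.int_coul X) ?_
    have hae : ∀ᵐ x : E3, x ≠ X := by
      have : volume ({X} : Set E3) = 0 := measure_singleton X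
      rw [ae_iff]
      simp
    filter_upwards [hae] with x hx
    by_cases h0 : h x = 0
    · simp [h0]
    · have h2 := hs (subset_tsupport _ h0)
      rw [Metric.mem_closedBall, dist_eq_norm] at h2
      have h3 : 0 < ‖x - X‖ := norm_pos_iff.2 (sub_ne_zero.2 hx)
      have h4 : 1 / lam ≤ 1 / ‖x - X‖ := one_div_le_one_div_of_le h3 h2
      calc 1 / lam * h x ^ 2 ≤ 1 / ‖x - X‖ * h x ^ 2 := mul_le_mul_of_nonneg_right h4 (sq_nonneg _)
        _ = h x ^ 2 / ‖x - X‖ := by ring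
  rwa [integral_const_mul, o.norm, mul_one] at h1

/-- the orbitals for the trial state -/
lemma exists_orbitals : ∃ A : ℝ, 0 < A ∧ ∀ (N k : ℕ) (z : Fin k → ℝ) (R : Fin k → E3) (m : Fin k) (ε : ℝ),
    1 ≤ N → (∀ j, 0 < z j) → 0 < ε → ∃ (f : Fin N → E3 → ℝ) (D : ℝ), (∀ l, Orb (f l)) ∧ 0 < D ∧ Sep f D ∧
      (∑ j, kin (f j)) - (∑ j, ∑ i, z i * ∫ x, f j x ^ 2 / ‖x - R i‖) + (N : ℝ) ^ 2 / D
        ≤ -(z m ^ 2 / (4 * A)) + ε := by
  obtain ⟨χ, o, hχ⟩ := exists_base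
  refine ⟨kin χ + 1, by have := kin_nonneg χ; linarith, ?_⟩
  intro N k z R m ε hN hz hε
  set A := kin χ with hA
  have hA0 : 0 ≤ A := kin_nonneg χ
  have hzm := hz m
  set lam : ℝ := 2 * (A + 1) / z m with hlam
  have hl : 0 < lam := by positivity
  set L : ℝ := max (max lam 1) (((N : ℝ) * A + (N : ℝ) ^ 2) / ε) with hL
  have hL1 : lam ≤ L := (le_max_left _ _).trans (le_max_left _ _)
  have hL2 : 1 ≤ L := (le_max_right _ _).trans (le_max_left _ _)
  have hL3 : ((N : ℝ) * A + (N : ℝ) ^ 2) / ε ≤ L := le_max_right _ _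
  have hL0 : 0 < L := by linarith
  let i0 : Fin N := ⟨0, hN⟩
  let sc : Fin N → ℝ := fun l => if l = i0 then lam else L
  let X : Fin N → E3 := fun l => R m + (3 * L * ((l : ℕ) : ℝ)) • ev 0
  have hsc : ∀ l, 0 < sc l := by
    intro l
    simp only [sc]
    split_ifs <;> assumption
  have hscL : ∀ l, sc l ≤ L := by
    intro l
    simp only [sc]
    split_ifs
    · exact hL1
    · exact le_rfl
  let f : Fin N → E3 → ℝ := fun l => gs χ (sc l) (X l)
  have hf : ∀ l, Orb (f l) := fun l => orb_gs o hχ (hsc l) (X l)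
  have hX0 : X i0 = R m := by
    simp [X, i0]
  have hev : ‖ev 0‖ = 1 := by
    simp [ev]
  have hXd : ∀ i j, i ≠ j → 3 * L ≤ ‖X i - X j‖ := by
    intro i j hij
    have e : X i - X j = (3 * L * (((i : ℕ) : ℝ) - ((j : ℕ) : ℝ))) • ev 0 := by
      simp only [X]
      rw [add_sub_add_left_eq_sub, ← sub_smul]
      congr 1
      ring
    rw [e, norm_smul, hev, mul_one, Real.norm_eq_abs, abs_mul, abs_of_pos (by positivity : (0 : ℝ) < 3 * L)]
    have h1 : (1 : ℝ) ≤ |((i : ℕ) : ℝ) - ((j : ℕ) : ℝ)| := by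
      have h2 : ((i : ℕ) : ℤ) - ((j : ℕ) : ℤ) ≠ 0 := by
        intro h
        apply hij
        have : (i : ℕ) = (j : ℕ) := by omega
        exact Fin.ext this
      have h3 := Int.one_le_abs h2
      exact_mod_cast h3
    nlinarith
  have hSep : Sep f L := by
    intro i j hij x y hx hy
    have h1 := tsupport_gs hχ (hsc i) (X i) hx
    have h2 := tsupport_gs hχ (hsc j) (X j) hy
    rw [Metric.mem_closedBall, dist_eq_norm] at h1 h2
    have h3 := hXd i j hij
    have h4 : ‖X i - X j‖ ≤ ‖x - y‖ + ‖x - X i‖ + ‖y - X j‖ := by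
      have e : X i - X j = (x - y) - (x - X i) + (y - X j) := by abel
      rw [e]
      exact (norm_add_le _ _).trans (add_le_add (norm_sub_le _ _) le_rfl)
    have h5 := hscL i
    have h6 := hscL j
    linarith
  refine ⟨f, L, hf, hL0, hSep, ?_⟩
  -- kinetic
  have hk : ∑ j, kin (f j) ≤ A / lam ^ 2 + (N : ℝ) * (A / L ^ 2) := by
    have h1 : ∀ j, kin (f j) ≤ (if j = i0 then A / lam ^ 2 else 0) + A / L ^ 2 := by
      intro j
      have e : kin (f j) = A / (sc j) ^ 2 := kin_gs o (hsc j) (X j)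
      rw [e]
      by_cases hj : j = i0
      · simp only [sc, hj, if_true]
        have : 0 ≤ A / L ^ 2 := by positivity
        linarith
      · simp only [sc, hj, if_false]
        linarith
    calc ∑ j, kin (f j) ≤ ∑ j, ((if j = i0 then A / lam ^ 2 else 0) + A / L ^ 2) := Finset.sum_le_sum fun j _ => h1 j
      _ = _ := by
        rw [Finset.sum_add_distrib, Finset.sum_ite_eq' Finset.univ i0 (fun _ => A / lam ^ 2)]
        simp
  -- potential
  have hp : z m / lam ≤ ∑ j, ∑ i, z i * ∫ x, f j x ^ 2 / ‖x - R i‖ := by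
    have hnn : ∀ j i, 0 ≤ z i * ∫ x, f j x ^ 2 / ‖x - R i‖ := fun j i =>
      mul_nonneg (hz i).le (integral_nonneg fun x => by positivity)
    have h1 : z m / lam ≤ z m * ∫ x, f i0 x ^ 2 / ‖x - R m‖ := by
      have hs : tsupport (f i0) ⊆ Metric.closedBall (R m) lam := by
        have := tsupport_gs hχ (hsc i0) (X i0)
        rw [hX0] at this
        have e : sc i0 = lam := by simp [sc]
        have e2 : f i0 = gs χ (sc i0) (R m) := by simp only [f, hX0]
        rw [e2]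
        rw [e] at this ⊢
        exact this
      have := mul_le_mul_of_nonneg_left (coul_ge (hf i0) hs) hzm.le
      calc z m / lam = z m * (1 / lam) := by ring
        _ ≤ _ := this
    calc z m / lam ≤ z m * ∫ x, f i0 x ^ 2 / ‖x - R m‖ := h1
      _ ≤ ∑ i, z i * ∫ x, f i0 x ^ 2 / ‖x - R i‖ :=
        Finset.single_le_sum (f := fun i => z i * ∫ x, f i0 x ^ 2 / ‖x - R i‖) (fun i _ => hnn i0 i) (Finset.mem_univ m)
      _ ≤ ∑ j, ∑ i, z i * ∫ x, f j x ^ 2 / ‖x - R i‖ :=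
        Finset.single_le_sum (f := fun j => ∑ i, z i * ∫ x, f j x ^ 2 / ‖x - R i‖)
          (fun j _ => Finset.sum_nonneg fun i _ => hnn j i) (Finset.mem_univ i0)
  have hLL : (N : ℝ) * (A / L ^ 2) + (N : ℝ) ^ 2 / L ≤ ε := by
    have h1 : A / L ^ 2 ≤ A / L := by
      apply div_le_div_of_nonneg_left hA0 hL0
      nlinarith
    have h2 : (N : ℝ) * (A / L ^ 2) ≤ (N : ℝ) * (A / L) := mul_le_mul_of_nonneg_left h1 (Nat.cast_nonneg _)
    have h3 : ((N : ℝ) * A + (N : ℝ) ^ 2) / L ≤ ε := by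
      rw [div_le_iff₀ hL0]
      rw [div_le_iff₀ hε] at hL3
      linarith
    calc (N : ℝ) * (A / L ^ 2) + (N : ℝ) ^ 2 / L ≤ (N : ℝ) * (A / L) + (N : ℝ) ^ 2 / L := by linarith
      _ = ((N : ℝ) * A + (N : ℝ) ^ 2) / L := by ring
      _ ≤ ε := h3
  have hmain : A / lam ^ 2 - z m / lam ≤ -(z m ^ 2 / (4 * (A + 1))) := by
    have h1 : A / lam ^ 2 ≤ (A + 1) / lam ^ 2 := by
      apply div_le_div_of_nonneg_right _ (by positivity)
      linarith
    have h2 : (A + 1) / lam ^ 2 - z m / lam = -(z m ^ 2 / (4 * (A + 1))) := by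
      have hA1 : (A + 1) ≠ 0 := by positivity
      rw [hlam]
      field_simp
      ring
    linarith
  linarith

end Pool.Agent.H7R3.TF
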